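import Mathlib

/-!
An equistable graph which is not weakly CIS: the complement of the line graph of a triangle-free
graph with 9 vertices and 14 edges.
-/

set_option autoImplicit false

namespace Pool.Agent.Results.MP_59918e_co.NotWeaklyCIS

open SimpleGraph Finset

/-- `S` is a maximal stable set of `G`. -/
def IsMaximalStable {V : Type} (G : SimpleGraph V) (S : Finset V) : Prop :=
  Maximal (fun T : Finset V => G.IsIndepSet (T : Set V)) S

/-- `K` is a maximal clique of `G`. -/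
def IsMaximalClique {V : Type} (G : SimpleGraph V) (K : Finset V) : Prop :=
  Maximal (fun T : Finset V => G.IsClique (T : Set V)) K

/-- Equistable: some nonnegative real weights give total weight `1` exactly to the maximal stable
sets. -/
def Equistable {V : Type} (G : SimpleGraph V) : Prop :=
  ∃ φ : V → ℝ, (∀ v, 0 ≤ φ v) ∧ ∀ S : Finset V, IsMaximalStable G S ↔ ∑ v ∈ S, φ v = 1

/-- Weakly CIS: there are an edge covering family `C` of maximal cliques and a non-edge covering
family `F` of maximal stable sets such that every member of `C` meets every member of `F`. -/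
def WeaklyCIS {V : Type} (G : SimpleGraph V) : Prop :=
  ∃ C F : Set (Finset V), (∀ K ∈ C, IsMaximalClique G K) ∧ (∀ S ∈ F, IsMaximalStable G S) ∧
    (∀ u v, G.Adj u v → ∃ K ∈ C, u ∈ K ∧ v ∈ K) ∧
    (∀ u v, u ≠ v → ¬ G.Adj u v → ∃ S ∈ F, u ∈ S ∧ v ∈ S) ∧
    ∀ K ∈ C, ∀ S ∈ F, ∃ x, x ∈ K ∧ x ∈ S

/-- The nine stars of the triangle-free graph on `{0,…,8}` with the edges
`01 04 06 12 18 25 26 27 36 37 38 45 47 58` (numbered `0,…,13` in this order). -/
def star : Fin 9 → Finset (Fin 14)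
  | 0 => {0, 1, 2}
  | 1 => {0, 3, 4}
  | 2 => {3, 5, 6, 7}
  | 3 => {8, 9, 10}
  | 4 => {1, 11, 12}
  | 5 => {5, 11, 13}
  | 6 => {2, 6, 8}
  | 7 => {7, 9, 12}
  | 8 => {4, 10, 13}

/-- two distinct edges are adjacent when they have no common end -/
def adjB (a b : Fin 14) : Bool := decide (∀ v : Fin 9, ¬ (a ∈ star v ∧ b ∈ star v))

/-- The complement of the line graph: two edges are adjacent when they are disjoint. -/
def Gr : SimpleGraph (Fin 14) where
  Adj a b := adjB a b = true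
  symm := ⟨by decide +kernel⟩
  loopless := ⟨by decide +kernel⟩

instance : DecidableRel Gr.Adj := fun a b => inferInstanceAs (Decidable (adjB a b = true))

/-- The weights (times 150). -/
def w : Fin 14 → ℕ := ![57, 44, 49, 39, 54, 51, 35, 25, 66, 53, 31, 34, 72, 65]

lemma star_stable : ∀ v : Fin 9, ∀ a ∈ star v, ∀ b ∈ star v, ¬ (adjB a b = true) := by
  decide +kernel

lemma star_max : ∀ v : Fin 9, ∀ u : Fin 14, u ∉ star v → ∃ x ∈ star v, adjB u x = true := by
  decide +kernel

lemma star_two : ∀ a : Fin 14, ∃ v : Fin 9, a ∈ star v ∧ ∃ b ∈ star v, b ≠ a := by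
  decide +kernel

lemma star_pair : ∀ a b : Fin 14, a ≠ b → ¬ (adjB a b = true) → ∃ v : Fin 9, a ∈ star v ∧
    b ∈ star v := by
  decide +kernel

lemma star_triple : ∀ a b : Fin 14, a ≠ b → ¬ (adjB a b = true) → ∀ c : Fin 14, c ≠ a → c ≠ b →
    ¬ (adjB a c = true) → ¬ (adjB b c = true) → ∀ v : Fin 9, a ∈ star v → b ∈ star v →
      c ∈ star v := by
  decide +kernel

lemma isMaximalStable_star (v : Fin 9) : IsMaximalStable Gr (star v) := by
  refine ⟨fun a ha b hb _ => star_stable v a ha b hb, ?_⟩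
  intro T hT hle u hu
  by_contra hn
  obtain ⟨x, hx, hux⟩ := star_max v u hn
  have hne : u ≠ x := by
    rintro rfl
    exact hn hx
  exact hT (Finset.mem_coe.2 hu) (Finset.mem_coe.2 (hle hx)) hne hux

lemma star_of_isMaximalStable {S : Finset (Fin 14)} (hS : IsMaximalStable Gr S) :
    ∃ v, S = star v := by
  have key : ∃ v, S ⊆ star v := by
    by_cases h1 : ∃ a ∈ S, ∃ b ∈ S, a ≠ b
    · obtain ⟨a, ha, b, hb, hab⟩ := h1
      have nab := hS.1 (Finset.mem_coe.2 ha) (Finset.mem_coe.2 hb) hab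
      obtain ⟨v, hav, hbv⟩ := star_pair a b hab nab
      refine ⟨v, fun c hc => ?_⟩
      by_cases hca : c = a
      · rw [hca]; exact hav
      by_cases hcb : c = b
      · rw [hcb]; exact hbv
      exact star_triple a b hab nab c hca hcb
        (hS.1 (Finset.mem_coe.2 ha) (Finset.mem_coe.2 hc) (Ne.symm hca))
        (hS.1 (Finset.mem_coe.2 hb) (Finset.mem_coe.2 hc) (Ne.symm hcb)) v hav hbv
    · push Not at h1
      rcases S.eq_empty_or_nonempty with rfl | ⟨a, ha⟩
      · exact ⟨0, by simp⟩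
      · obtain ⟨v, hv, -⟩ := star_two a
        refine ⟨v, fun b hb => ?_⟩
        rw [← h1 a ha b hb]
        exact hv
  obtain ⟨v, hv⟩ := key
  exact ⟨v, Finset.Subset.antisymm hv (hS.2 (isMaximalStable_star v).1 hv)⟩

lemma sum_star : ∀ v : Fin 9, ∑ a ∈ star v, w a = 150 := by
  decide +kernel

lemma subset_sum : ∀ b0 b1 b2 b3 b4 b5 b6 b7 b8 b9 b10 b11 b12 b13 : Bool,
    (bif b0 then 57 else 0) +
    (bif b1 then 44 else 0) +
    (bif b2 then 49 else 0) +
    (bif b3 then 39 else 0) +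
    (bif b4 then 54 else 0) +
    (bif b5 then 51 else 0) +
    (bif b6 then 35 else 0) +
    (bif b7 then 25 else 0) +
    (bif b8 then 66 else 0) +
    (bif b9 then 53 else 0) +
    (bif b10 then 31 else 0) +
    (bif b11 then 34 else 0) +
    (bif b12 then 72 else 0) +
    (bif b13 then 65 else 0) = 150 →
    ∃ v : Fin 9, ((b0 == decide ((0 : Fin 14) ∈ star v)) &&
      (b1 == decide ((1 : Fin 14) ∈ star v)) &&
      (b2 == decide ((2 : Fin 14) ∈ star v)) &&
      (b3 == decide ((3 : Fin 14) ∈ star v)) &&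
      (b4 == decide ((4 : Fin 14) ∈ star v)) &&
      (b5 == decide ((5 : Fin 14) ∈ star v)) &&
      (b6 == decide ((6 : Fin 14) ∈ star v)) &&
      (b7 == decide ((7 : Fin 14) ∈ star v)) &&
      (b8 == decide ((8 : Fin 14) ∈ star v)) &&
      (b9 == decide ((9 : Fin 14) ∈ star v)) &&
      (b10 == decide ((10 : Fin 14) ∈ star v)) &&
      (b11 == decide ((11 : Fin 14) ∈ star v)) &&
      (b12 == decide ((12 : Fin 14) ∈ star v)) &&
      (b13 == decide ((13 : Fin 14) ∈ star v))) = true := by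
  decide +kernel

lemma eq_star_of_sum {S : Finset (Fin 14)} (hS : ∑ a ∈ S, w a = 150) : ∃ v, S = star v := by
  classical
  have h1 : ∑ a ∈ S, w a = ∑ i : Fin 14, (bif decide (i ∈ S) then w i else 0) := by
    have h2 : ∀ i : Fin 14, (bif decide (i ∈ S) then w i else 0) = if i ∈ S then w i else 0 := by
      intro i
      by_cases h : i ∈ S <;> simp [h]
    simp_rw [h2]
    rw [← Finset.sum_filter]
    congr 1
    ext i
    simp
  rw [h1] at hS
  obtain ⟨v, h⟩ := subset_sum (decide ((0 : Fin 14) ∈ S)) (decide ((1 : Fin 14) ∈ S)) (decide ((2 : Fin 14) ∈ S)) (decide ((3 : Fin 14) ∈ S)) (decide ((4 : Fin 14) ∈ S)) (decide ((5 : Fin 14) ∈ S)) (decide ((6 : Fin 14) ∈ S)) (decide ((7 : Fin 14) ∈ S)) (decide ((8 : Fin 14) ∈ S)) (decide ((9 : Fin 14) ∈ S)) (decide ((10 : Fin 14) ∈ S)) (decide ((11 : Fin 14) ∈ S)) (decide ((12 : Fin 14) ∈ S)) (decide ((13 : Fin 14) ∈ S)) (by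
    rw [← hS]
    simp [Fin.sum_univ_succ, w]
    ring)
  refine ⟨v, ?_⟩
  ext i
  have : decide (i ∈ S) = decide (i ∈ star v) := by
    simp only [Bool.and_eq_true, beq_iff_eq] at h
    obtain ⟨⟨⟨⟨⟨⟨⟨⟨⟨⟨⟨⟨⟨h0, h1⟩, h2⟩, h3⟩, h4⟩, h5⟩, h6⟩, h7⟩, h8⟩, h9⟩, h10⟩, h11⟩, h12⟩, h13⟩ := h
    fin_cases i
    all_goals assumption
  simpa using this

theorem equistable_Gr : Equistable Gr := by
  refine ⟨fun a => (w a : ℝ) / 150, fun a => by positivity, fun S => ?_⟩
  have h1 : (∑ a ∈ S, ((w a : ℝ) / 150) = 1) ↔ ∑ a ∈ S, w a = 150 := by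
    rw [← Finset.sum_div, div_eq_one_iff_eq (by norm_num)]
    exact_mod_cast Iff.rfl
  change IsMaximalStable Gr S ↔ ∑ a ∈ S, ((w a : ℝ) / 150) = 1
  rw [h1]
  constructor
  · intro h
    obtain ⟨v, rfl⟩ := star_of_isMaximalStable h
    exact sum_star v
  · intro h
    obtain ⟨v, rfl⟩ := eq_star_of_sum h
    exact isMaximalStable_star v

lemma star_inj : ∀ v : Fin 9, ∃ a ∈ star v, ∃ b ∈ star v, a ≠ b ∧
    ∀ v' : Fin 9, a ∈ star v' → b ∈ star v' → v' = v := by
  decide +kernel

lemma two_stars : ∀ a : Fin 14, (Finset.univ.filter (fun v : Fin 9 => a ∈ star v)).card = 2 := by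
  decide +kernel

theorem not_weaklyCIS_Gr : ¬ WeaklyCIS Gr := by
  classical
  rintro ⟨C, F, hC, hF, hCe, hFe, hcross⟩
  have hstar : ∀ v, star v ∈ F := by
    intro v
    obtain ⟨a, ha, b, hb, hab, huniq⟩ := star_inj v
    obtain ⟨S, hSF, haS, hbS⟩ := hFe a b hab (star_stable v a ha b hb)
    obtain ⟨v', rfl⟩ := star_of_isMaximalStable (hF S hSF)
    rw [huniq v' haS hbS] at hSF
    exact hSF
  have hadj : ∃ a b : Fin 14, adjB a b = true := by decide +kernel
  obtain ⟨a, b, hab⟩ := hadj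
  obtain ⟨K, hK, -, -⟩ := hCe a b hab
  have hone : ∀ v, (K ∩ star v).card = 1 := by
    intro v
    obtain ⟨x, hxK, hxS⟩ := hcross K hK (star v) (hstar v)
    rw [Finset.card_eq_one]
    refine ⟨x, ?_⟩
    ext y
    rw [Finset.mem_inter, Finset.mem_singleton]
    constructor
    · rintro ⟨hyK, hyS⟩
      by_contra hne
      exact star_stable v y hyS x hxS ((hC K hK).1 (Finset.mem_coe.2 hyK) (Finset.mem_coe.2 hxK) hne)
    · rintro rfl
      exact ⟨hxK, hxS⟩
  have hcount : ∑ v : Fin 9, (K ∩ star v).card = ∑ a ∈ K, 2 := by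
    have h2 : ∀ v : Fin 9, (K ∩ star v).card = ∑ a ∈ K, if a ∈ star v then 1 else 0 := by
      intro v
      rw [Finset.card_eq_sum_ones, ← Finset.filter_mem_eq_inter, Finset.sum_filter]
    simp_rw [h2]
    rw [Finset.sum_comm]
    refine Finset.sum_congr rfl (fun a _ => ?_)
    rw [← two_stars a, Finset.card_filter]
  simp only [hone, Finset.sum_const, Finset.card_univ, Fintype.card_fin, smul_eq_mul] at hcount
  omega

/-- There is a finite simple graph that is equistable but not weakly CIS. -/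
theorem result : ∃ (V : Type) (_ : Finite V) (G : SimpleGraph V), Equistable G ∧ ¬ WeaklyCIS G :=
  ⟨Fin 14, inferInstance, Gr, equistable_Gr, not_weaklyCIS_Gr⟩

end Pool.Agent.Results.MP_59918e_co.NotWeaklyCIS
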